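import Pool.Agent.Q273.QP.Stm

/-! Project QP of helper273: job QP-BC. The Borel-Cantelli argument. -/

set_option autoImplicit false

namespace Pool.Agent.Q66.QP

open MeasureTheory Q273.QP Filter

/-- The points which are close to an object of size at most `2 ^ k`. -/
def Bad {ι : Type} (V : Finset Nat.Primes) (H : ι → ℕ) (W : ι → ℝ) (g : ι → ℝ → ℝ)
    (h : ι → (p : Nat.Primes) → @PadicInt p.1 ⟨p.2⟩ → ℝ)
    (E : (p : Nat.Primes) → Set (@PadicInt p.1 ⟨p.2⟩)) (ε : ℝ) (n k : ℕ) : Set (ℝ × ZHat) :=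
  {u | |u.1| ≤ n ∧ (∀ p ∈ V, u.2 p ∈ E p) ∧ ∃ i, H i ≤ 2 ^ k ∧
    g i u.1 * ∏ p ∈ V, h i p (u.2 p) ≤ W i * (2 : ℝ) ^ (-(ε * k))}

open scoped Classical in
/-- Extension by zero. -/
noncomputable def ext0 (V : Finset Nat.Primes) (J : ℕ) (f : V → Fin J) : Nat.Primes → ℕ :=
  fun p => if hp : p ∈ V then (f ⟨p, hp⟩ : ℕ) else 0

theorem bad_sub {ι : Type} (V : Finset Nat.Primes) (H : ι → ℕ)
    (hfin : ∀ X : ℕ, {i | H i ≤ X}.Finite) (W : ι → ℝ) (g : ι → ℝ → ℝ)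
    (h : ι → (p : Nat.Primes) → @PadicInt p.1 ⟨p.2⟩ → ℝ)
    (E : (p : Nat.Primes) → Set (@PadicInt p.1 ⟨p.2⟩)) (ε : ℝ)
    (hh : ∀ i (p : Nat.Primes) η, ∃ j : ℕ, h i p η = (p : ℝ) ^ (-(j : ℤ)) ∨ h i p η = 0)
    (n k J : ℕ) :
    Bad V H W g h E ε n k ⊆ ⋃ i ∈ (hfin (2 ^ k)).toFinset,
      ((⋃ f ∈ (Finset.univ : Finset (V → Fin J)),
        ({ξ : ℝ | |ξ| ≤ n ∧ g i ξ ≤ W i * (2 : ℝ) ^ (-(ε * k)) * ∏ p ∈ V, (p : ℝ) ^ ext0 V J f p} ×ˢ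
          {η : ZHat | ∀ p ∈ V, η p ∈ E p ∧ h i p (η p) ≤ (p : ℝ) ^ (-(ext0 V J f p : ℤ))})) ∪
        ⋃ p ∈ V, ({ξ : ℝ | |ξ| ≤ n} ×ˢ {η : ZHat | h i p (η p) ≤ (p : ℝ) ^ (-(J : ℤ))})) := by
  classical
  rintro u ⟨hn, hE, i, hi, hle⟩
  refine Set.mem_iUnion₂.2 ⟨i, (Set.Finite.mem_toFinset _).2 hi, ?_⟩
  by_cases hT : ∃ p ∈ V, h i p (u.2 p) ≤ (p : ℝ) ^ (-(J : ℤ))
  · right
    obtain ⟨p, hp, hp2⟩ := hT
    exact Set.mem_iUnion₂.2 ⟨p, hp, ⟨hn, hp2⟩⟩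
  left
  push Not at hT
  have h1 : ∀ p : V, ∃ j : Fin J, h i p.1 (u.2 p.1) = (p.1 : ℝ) ^ (-((j : ℕ) : ℤ)) := by
    rintro ⟨p, hp⟩
    have hp1 : (1 : ℝ) < (p : ℝ) := by exact_mod_cast p.2.one_lt
    obtain ⟨j, hj⟩ := hh i p (u.2 p)
    have hlt := hT p hp
    rcases hj with hj | hj
    · have hjJ : j < J := by
        rw [hj] at hlt
        have := (zpow_lt_zpow_iff_right₀ hp1).1 hlt
        omega
      exact ⟨⟨j, hjJ⟩, hj⟩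
    · exfalso
      rw [hj] at hlt
      have : (0 : ℝ) < (p : ℝ) ^ (-(J : ℤ)) := by positivity
      linarith
  choose f hf using h1
  have hext : ∀ p ∈ V, h i p (u.2 p) = (p : ℝ) ^ (-(ext0 V J f p : ℤ)) := by
    intro p hp
    have e : ext0 V J f p = (f ⟨p, hp⟩ : ℕ) := by
      unfold ext0
      rw [dif_pos hp]
    rw [e]
    exact hf ⟨p, hp⟩
  refine Set.mem_iUnion₂.2 ⟨f, Finset.mem_univ _, ⟨⟨hn, ?_⟩, fun p hp => ⟨hE p hp, (hext p hp).le⟩⟩⟩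
  have e1 : ∏ p ∈ V, h i p (u.2 p) = (∏ p ∈ V, (p : ℝ) ^ ext0 V J f p)⁻¹ := by
    rw [← Finset.prod_inv_distrib]
    refine Finset.prod_congr rfl fun p hp => ?_
    rw [hext p hp, zpow_neg, zpow_natCast]
  have hpos : 0 < ∏ p ∈ V, (p : ℝ) ^ ext0 V J f p :=
    Finset.prod_pos fun p _ => pow_pos (by exact_mod_cast p.2.pos) _
  rw [e1, ← div_eq_mul_inv, div_le_iff₀ hpos] at hle
  exact hle

theorem pow_shift_le (m k : ℕ) : ((2 : ℝ) ^ k + m) ^ m ≤ (1 + (m : ℝ)) ^ m * 2 ^ (k * m) := by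
  rw [pow_mul, ← mul_pow]
  apply pow_le_pow_left₀ (by positivity)
  have h1 : (1 : ℝ) ≤ 2 ^ k := one_le_pow₀ (by norm_num)
  have h2 : (0 : ℝ) ≤ m := Nat.cast_nonneg _
  nlinarith

theorem bad_meas [MeasurableSpace ZHat] [BorelSpace ZHat] (μ : Measure ZHat) [IsFiniteMeasure μ]
    {ι : Type} (V : Finset Nat.Primes) (H : ι → ℕ)
    (hfin : ∀ X : ℕ, {i | H i ≤ X}.Finite) (W : ι → ℝ) (g : ι → ℝ → ℝ)
    (h : ι → (p : Nat.Primes) → @PadicInt p.1 ⟨p.2⟩ → ℝ)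
    (E : (p : Nat.Primes) → Set (@PadicInt p.1 ⟨p.2⟩)) (ε : ℝ)
    (hh : ∀ i (p : Nat.Primes) η, ∃ j : ℕ, h i p η = (p : ℝ) ^ (-(j : ℤ)) ∨ h i p η = 0)
    (m₁ m₂ : ℕ)
    (h1 : ∀ i, ∀ p ∈ V, ∀ j : ℕ, μ {η : ZHat | h i p (η p) ≤ (p : ℝ) ^ (-(j : ℤ))} ≤
      ENNReal.ofReal (((H i : ℝ) + m₁) ^ m₁ * (p : ℝ) ^ (-(j : ℤ))))
    (h2 : ∀ X : ℕ, (hfin X).toFinset.card ≤ (X + m₂) ^ m₂) (n : ℕ) (C : ℝ)
    (h3 : ∀ (k : ℕ) (j : Nat.Primes → ℕ),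
      ∑ i ∈ (hfin (2 ^ k)).toFinset,
        volume {ξ : ℝ | |ξ| ≤ n ∧ g i ξ ≤ W i * (2 : ℝ) ^ (-(ε * k)) * ∏ p ∈ V, (p : ℝ) ^ j p} *
          μ {η : ZHat | ∀ p ∈ V, η p ∈ E p ∧ h i p (η p) ≤ (p : ℝ) ^ (-(j p : ℤ))} ≤
        ENNReal.ofReal (C * (2 : ℝ) ^ (-(ε * k / 2)))) (k : ℕ) :
    (volume.prod μ) (Bad V H W g h E ε n k) ≤
      ENNReal.ofReal ((((m₁ + m₂ + 1 : ℕ) : ℝ) ^ V.card * |C|) *
        ((k : ℝ) ^ V.card * ((2 : ℝ) ^ (-(ε / 2))) ^ k) +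
        (V.card * (2 * n) * ((1 + (m₁ : ℝ)) ^ m₁ * (1 + (m₂ : ℝ)) ^ m₂)) * (1 / 2 : ℝ) ^ k) := by
  classical
  set J : ℕ := (m₁ + m₂ + 1) * k with hJ
  refine (measure_mono (bad_sub V H hfin W g h E ε hh n k J)).trans ?_
  refine (measure_biUnion_finset_le _ _).trans ?_
  have hi : ∀ i ∈ (hfin (2 ^ k)).toFinset, (volume.prod μ) ((⋃ f ∈ (Finset.univ : Finset (V → Fin J)),
        ({ξ : ℝ | |ξ| ≤ n ∧ g i ξ ≤ W i * (2 : ℝ) ^ (-(ε * k)) * ∏ p ∈ V, (p : ℝ) ^ ext0 V J f p} ×ˢ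
          {η : ZHat | ∀ p ∈ V, η p ∈ E p ∧ h i p (η p) ≤ (p : ℝ) ^ (-(ext0 V J f p : ℤ))})) ∪
        ⋃ p ∈ V, ({ξ : ℝ | |ξ| ≤ n} ×ˢ {η : ZHat | h i p (η p) ≤ (p : ℝ) ^ (-(J : ℤ))})) ≤
      ∑ f : V → Fin J,
        volume {ξ : ℝ | |ξ| ≤ n ∧ g i ξ ≤ W i * (2 : ℝ) ^ (-(ε * k)) *
            ∏ p ∈ V, (p : ℝ) ^ ext0 V J f p} *
          μ {η : ZHat | ∀ p ∈ V, η p ∈ E p ∧ h i p (η p) ≤ (p : ℝ) ^ (-(ext0 V J f p : ℤ))} +
      ∑ p ∈ V, ENNReal.ofReal (2 * n * ((1 + (m₁ : ℝ)) ^ m₁ * 2 ^ (k * m₁) *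
        ((2 : ℝ) ^ J)⁻¹)) := by
    intro i hi
    have hiH : H i ≤ 2 ^ k := (Set.Finite.mem_toFinset (hfin (2 ^ k))).1 hi
    refine (measure_union_le _ _).trans (add_le_add ?_ ?_)
    · refine (measure_biUnion_finset_le _ _).trans (Finset.sum_le_sum fun f _ => ?_)
      rw [Measure.prod_prod]
    · refine (measure_biUnion_finset_le _ _).trans (Finset.sum_le_sum fun p hp => ?_)
      rw [Measure.prod_prod]
      have e1 : volume {ξ : ℝ | |ξ| ≤ n} ≤ ENNReal.ofReal (2 * n) := by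
        have e2 : {ξ : ℝ | |ξ| ≤ n} = Set.Icc (-(n : ℝ)) n := by
          ext ξ
          simp only [Set.mem_ofPred_eq, Set.mem_Icc, abs_le]
        rw [e2, Real.volume_Icc]
        apply ENNReal.ofReal_le_ofReal
        linarith
      rw [ENNReal.ofReal_mul (by positivity)]
      refine mul_le_mul' e1 ((h1 i p hp J).trans (ENNReal.ofReal_le_ofReal ?_))
      have e3 : (((H i : ℝ) + m₁) ^ m₁) ≤ (1 + (m₁ : ℝ)) ^ m₁ * 2 ^ (k * m₁) := by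
        refine le_trans ?_ (pow_shift_le m₁ k)
        apply pow_le_pow_left₀ (by positivity)
        have : (H i : ℝ) ≤ 2 ^ k := by exact_mod_cast hiH
        linarith
      have e4 : (p : ℝ) ^ (-(J : ℤ)) ≤ ((2 : ℝ) ^ J)⁻¹ := by
        rw [zpow_neg, zpow_natCast]
        apply inv_anti₀ (by positivity)
        apply pow_le_pow_left₀ (by norm_num)
        exact_mod_cast p.2.two_le
      exact mul_le_mul e3 e4 (by positivity) (by positivity)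
  refine (Finset.sum_le_sum hi).trans ?_
  rw [Finset.sum_add_distrib, Finset.sum_comm]
  have hr : (0 : ℝ) < (2 : ℝ) ^ (-(ε / 2)) := by positivity
  have hrk : (2 : ℝ) ^ (-(ε * k / 2)) = ((2 : ℝ) ^ (-(ε / 2))) ^ k := by
    rw [← Real.rpow_natCast, ← Real.rpow_mul (by norm_num)]
    congr 1
    ring
  have hA : ∑ f : V → Fin J, ∑ i ∈ (hfin (2 ^ k)).toFinset,
        volume {ξ : ℝ | |ξ| ≤ n ∧ g i ξ ≤ W i * (2 : ℝ) ^ (-(ε * k)) *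
            ∏ p ∈ V, (p : ℝ) ^ ext0 V J f p} *
          μ {η : ZHat | ∀ p ∈ V, η p ∈ E p ∧ h i p (η p) ≤ (p : ℝ) ^ (-(ext0 V J f p : ℤ))} ≤
      ENNReal.ofReal ((((m₁ + m₂ + 1 : ℕ) : ℝ) ^ V.card * |C|) *
        ((k : ℝ) ^ V.card * ((2 : ℝ) ^ (-(ε / 2))) ^ k)) := by
    refine (Finset.sum_le_sum fun f _ => h3 k (ext0 V J f)).trans ?_
    rw [Finset.sum_const, Finset.card_univ, Fintype.card_fun, Fintype.card_fin, Fintype.card_coe,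
      nsmul_eq_mul]
    have e1 : ENNReal.ofReal (C * (2 : ℝ) ^ (-(ε * k / 2))) ≤
        ENNReal.ofReal (|C| * ((2 : ℝ) ^ (-(ε / 2))) ^ k) := by
      apply ENNReal.ofReal_le_ofReal
      rw [hrk]
      exact mul_le_mul_of_nonneg_right (le_abs_self C) (by positivity)
    refine (mul_le_mul_right e1 _).trans ?_
    rw [← ENNReal.ofReal_natCast, ← ENNReal.ofReal_mul (by positivity)]
    apply ENNReal.ofReal_le_ofReal
    apply le_of_eq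
    rw [hJ]
    push_cast
    rw [mul_pow]
    ring
  have hB : ∑ i ∈ (hfin (2 ^ k)).toFinset, ∑ p ∈ V,
      ENNReal.ofReal (2 * n * ((1 + (m₁ : ℝ)) ^ m₁ * 2 ^ (k * m₁) * ((2 : ℝ) ^ J)⁻¹)) ≤
      ENNReal.ofReal ((V.card * (2 * n) * ((1 + (m₁ : ℝ)) ^ m₁ * (1 + (m₂ : ℝ)) ^ m₂)) *
        (1 / 2 : ℝ) ^ k) := by
    rw [Finset.sum_const, Finset.sum_const, nsmul_eq_mul, nsmul_eq_mul, ← mul_assoc,
      ← Nat.cast_mul, ← ENNReal.ofReal_natCast, ← ENNReal.ofReal_mul (by positivity)]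
    apply ENNReal.ofReal_le_ofReal
    have e1 : (((hfin (2 ^ k)).toFinset.card : ℕ) : ℝ) ≤ (1 + (m₂ : ℝ)) ^ m₂ * 2 ^ (k * m₂) := by
      refine le_trans ?_ (pow_shift_le m₂ k)
      exact_mod_cast h2 (2 ^ k)
    have e2 : (2 : ℝ) ^ (k * m₂) * (2 ^ (k * m₁) * ((2 : ℝ) ^ J)⁻¹) = (1 / 2 : ℝ) ^ k := by
      have e3 : (2 : ℝ) ^ J = 2 ^ (k * m₂) * 2 ^ (k * m₁) * 2 ^ k := by
        rw [hJ, ← pow_add, ← pow_add]
        congr 1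
        ring
      rw [e3]
      field_simp
      rw [← mul_pow]
      norm_num
    push_cast
    calc (((hfin (2 ^ k)).toFinset.card : ℕ) : ℝ) * (V.card : ℝ) *
          (2 * n * ((1 + (m₁ : ℝ)) ^ m₁ * 2 ^ (k * m₁) * ((2 : ℝ) ^ J)⁻¹))
        ≤ ((1 + (m₂ : ℝ)) ^ m₂ * 2 ^ (k * m₂)) * (V.card : ℝ) *
          (2 * n * ((1 + (m₁ : ℝ)) ^ m₁ * 2 ^ (k * m₁) * ((2 : ℝ) ^ J)⁻¹)) := by
          apply mul_le_mul_of_nonneg_right _ (by positivity)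
          exact mul_le_mul_of_nonneg_right e1 (by positivity)
      _ = (V.card * (2 * n) * ((1 + (m₁ : ℝ)) ^ m₁ * (1 + (m₂ : ℝ)) ^ m₂)) *
          ((2 : ℝ) ^ (k * m₂) * (2 ^ (k * m₁) * ((2 : ℝ) ^ J)⁻¹)) := by ring
      _ = _ := by rw [e2]
  rw [ENNReal.ofReal_add (by positivity) (by positivity)]
  exact add_le_add hA hB

theorem bc : S_BC := by
  intro _ _ μ _ _ ι V H hfin W g h E ε hε hW hg hh hm₁ hm₂ hC
  obtain ⟨m₁, h1⟩ := hm₁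
  obtain ⟨m₂, h2⟩ := hm₂
  have key : ∀ n : ℕ, ∀ᵐ u : ℝ × ZHat ∂(volume.prod μ), |u.1| ≤ n → (∀ p ∈ V, u.2 p ∈ E n p) →
      {i | 1 ≤ H i ∧ g i u.1 * ∏ p ∈ V, h i p (u.2 p) ≤ W i * (2 * (H i : ℝ)) ^ (-ε)}.Finite := by
    intro n
    obtain ⟨C, h3⟩ := hC n
    have hsum : ∑' k, (volume.prod μ) (Bad V H W g h (E n) ε n k) ≠ ⊤ := by
      have hr0 : (0 : ℝ) < (2 : ℝ) ^ (-(ε / 2)) := by positivity
      have hr1 : (2 : ℝ) ^ (-(ε / 2)) < 1 :=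
        Real.rpow_lt_one_of_one_lt_of_neg (by norm_num) (by linarith)
      have s1 : Summable fun k : ℕ => (k : ℝ) ^ V.card * ((2 : ℝ) ^ (-(ε / 2))) ^ k :=
        summable_pow_mul_geometric_of_norm_lt_one V.card
          (by rw [Real.norm_eq_abs, abs_of_pos hr0]; exact hr1)
      have s2 : Summable fun k : ℕ => (1 / 2 : ℝ) ^ k :=
        summable_geometric_of_lt_one (by norm_num) (by norm_num)
      have s3 := (s1.mul_left (((m₁ + m₂ + 1 : ℕ) : ℝ) ^ V.card * |C|)).add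
        (s2.mul_left (V.card * (2 * n) * ((1 + (m₁ : ℝ)) ^ m₁ * (1 + (m₂ : ℝ)) ^ m₂)))
      refine ne_top_of_le_ne_top s3.tsum_ofReal_ne_top (ENNReal.tsum_le_tsum fun k => ?_)
      exact bad_meas μ V H hfin W g h (E n) ε hh m₁ m₂ h1 h2 n C h3 k
    filter_upwards [ae_eventually_notMem hsum] with u hu hn hE
    obtain ⟨K, hK⟩ := eventually_atTop.1 hu
    refine (hfin (2 ^ K)).subset ?_
    rintro i ⟨hi1, hi2⟩
    by_contra hlt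
    have hlt' : 2 ^ K < H i := by
      rw [Set.mem_ofPred_eq, not_le] at hlt
      exact hlt
    have hk1 : H i ≤ 2 ^ Nat.clog 2 (H i) := Nat.le_pow_clog (by norm_num) _
    have hKk : K ≤ Nat.clog 2 (H i) := by
      by_contra hc
      push Not at hc
      have : 2 ^ Nat.clog 2 (H i) ≤ 2 ^ K := Nat.pow_le_pow_right (by norm_num) hc.le
      omega
    have hk2 : 2 ^ Nat.clog 2 (H i) ≤ 2 * H i := by
      rcases Nat.lt_or_ge 1 (H i) with h4 | h4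
      · have h5 := Nat.pow_pred_clog_lt_self (b := 2) (by norm_num) h4
        have h6 : 0 < Nat.clog 2 (H i) := Nat.clog_pos (by norm_num) h4
        have h7 : 2 ^ Nat.clog 2 (H i) = 2 * 2 ^ (Nat.clog 2 (H i)).pred := by
          conv_lhs => rw [← Nat.succ_pred_eq_of_pos h6]
          rw [pow_succ]
          ring
        omega
      · rw [Nat.clog_of_right_le_one h4]
        omega
    refine hK _ hKk ⟨hn, hE, i, hk1, hi2.trans ?_⟩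
    apply mul_le_mul_of_nonneg_left _ (hW i)
    have e1 : (2 : ℝ) ^ (-(ε * (Nat.clog 2 (H i) : ℝ))) =
        ((2 : ℝ) ^ Nat.clog 2 (H i)) ^ (-ε) := by
      rw [← Real.rpow_natCast, ← Real.rpow_mul (by norm_num)]
      congr 1
      ring
    rw [e1]
    apply Real.rpow_le_rpow_of_nonpos (by positivity) _ (by linarith)
    exact_mod_cast hk2
  filter_upwards [ae_all_iff.2 key] with u hu
  rintro ⟨n, hn, hE⟩
  exact hu n hn hE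

end Pool.Agent.Q66.QP
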