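import Pool.Agent.Q273.QP.Stm

/-! Project QP of helper273: job QP-HAAR. -/

set_option autoImplicit false

namespace Pool.Agent.Q66.QP

open MeasureTheory Q273.QP

/-- The constant vector of a natural number. -/
noncomputable def cst (c : ℕ) : ZHat := fun p =>
  haveI : Fact p.1.Prime := ⟨p.2⟩
  ((c : ℕ) : ℤ_[p.1])

theorem dvd_of_close (p : Nat.Primes) (c c' k : ℕ) (x z : @PadicInt p.1 ⟨p.2⟩)
    (h1 : dP p (cst c p + x) z ≤ (p : ℝ) ^ (-(k : ℤ)))
    (h2 : dP p (cst c' p + x) z ≤ (p : ℝ) ^ (-(k : ℤ))) : ((p.1 : ℤ) ^ k) ∣ (c : ℤ) - c' := by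
  have hp : Fact p.1.Prime := ⟨p.2⟩
  have h3 : ‖(((c : ℤ) - c' : ℤ) : ℤ_[p.1])‖ ≤ ((p.1 : ℕ) : ℝ) ^ (-(k : ℤ)) := by
    have e : (((c : ℤ) - c' : ℤ) : ℤ_[p.1]) =
        ((cst c p + x) - z) - ((cst c' p + x) - z) := by
      have e1 : cst c p = ((c : ℕ) : ℤ_[p.1]) := rfl
      have e2 : cst c' p = ((c' : ℕ) : ℤ_[p.1]) := rfl
      rw [e1, e2]
      push_cast
      ring
    rw [e, sub_eq_add_neg]
    refine (PadicInt.nonarchimedean _ _).trans (max_le h1 ?_)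
    rw [norm_neg]
    exact h2
  rw [PadicInt.norm_int_le_pow_iff_dvd] at h3
  exact_mod_cast h3

theorem haar : S_HAAR := by
  intro _ _ μ _ _ V z k
  classical
  set B : Set ZHat := {η : ZHat | ∀ p ∈ V, dP p (η p) (z p) ≤ (p : ℝ) ^ (-(k p : ℤ))} with hB
  have hBc : IsClosed B := by
    have h1 : B = ⋂ p ∈ V, {η : ZHat | dP p (η p) (z p) ≤ (p : ℝ) ^ (-(k p : ℤ))} := by
      ext η
      simp only [hB, Set.mem_iInter, Set.mem_ofPred_eq]
    rw [h1]
    refine isClosed_biInter fun p _ => isClosed_le ?_ continuous_const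
    have : Fact p.1.Prime := ⟨p.2⟩
    unfold dP
    exact continuous_norm.comp ((continuous_apply p).sub continuous_const)
  have hBm : MeasurableSet B := hBc.measurableSet
  set N : ℕ := ∏ p ∈ V, p.1 ^ k p with hN
  have hNpos : 0 < N := Finset.prod_pos fun p _ => pow_pos p.2.pos _
  let E : Fin N → Set ZHat := fun c => (fun η => cst c.1 + η) ⁻¹' B
  have hE : ∀ c, μ (E c) = μ B := fun c => measure_preimage_add μ (cst c.1) B
  have hEm : ∀ c, MeasurableSet (E c) := fun c => by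
    have hc : Continuous fun η : ZHat => cst c.1 + η := continuous_const.add continuous_id
    exact hc.measurable hBm
  have hdisj : Pairwise (Function.onFun Disjoint E) := by
    intro c c' hc
    rw [Function.onFun, Set.disjoint_left]
    intro η h1 h2
    apply hc
    have h3 : ∀ p ∈ V, ((p.1 : ℤ) ^ k p) ∣ (c.1 : ℤ) - c'.1 := fun p hp =>
      dvd_of_close p c.1 c'.1 (k p) (η p) (z p) (h1 p hp) (h2 p hp)
    have h4 : (∏ p ∈ V, (p.1 : ℤ) ^ k p) ∣ (c.1 : ℤ) - c'.1 := by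
      refine Finset.prod_dvd_of_coprime ?_ h3
      intro p _ q _ hpq
      rw [Function.onFun]
      refine IsCoprime.pow ?_
      rw [Nat.isCoprime_iff_coprime]
      exact (Nat.coprime_primes p.2 q.2).2 fun h => hpq (Subtype.ext h)
    have h5 : (∏ p ∈ V, (p.1 : ℤ) ^ k p) = (N : ℤ) := by
      rw [hN]; push_cast; rfl
    rw [h5] at h4
    have h6 : (c.1 : ℤ) - c'.1 = 0 := by
      apply Int.eq_zero_of_abs_lt_dvd h4
      have := c.2
      have := c'.2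
      rw [abs_lt]
      constructor <;> omega
    apply Fin.ext
    omega
  have h1 : (N : ENNReal) * μ B ≤ μ Set.univ := by
    have h2 : μ (⋃ c, E c) = ∑ c, μ (E c) := by
      rw [measure_iUnion hdisj hEm, tsum_fintype]
    have h3 : ∑ c, μ (E c) = (N : ENNReal) * μ B := by
      rw [Finset.sum_congr rfl fun c _ => hE c, Finset.sum_const, Finset.card_univ, nsmul_eq_mul,
        Fintype.card_fin]
    rw [← h3, ← h2]
    exact measure_mono (Set.subset_univ _)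
  have hpos : (0 : ℝ) < (N : ℝ) := by exact_mod_cast hNpos
  have hne : (N : ENNReal) ≠ 0 := by exact_mod_cast hNpos.ne'
  have hinv : ENNReal.ofReal (∏ p ∈ V, (p : ℝ) ^ (-(k p : ℤ))) = (N : ENNReal)⁻¹ := by
    have e : ∏ p ∈ V, (p : ℝ) ^ (-(k p : ℤ)) = ((N : ℕ) : ℝ)⁻¹ := by
      rw [hN]
      push_cast
      rw [← Finset.prod_inv_distrib]
      refine Finset.prod_congr rfl fun p _ => ?_
      rw [zpow_neg, zpow_natCast]
    rw [e, ENNReal.ofReal_inv_of_pos hpos, ENNReal.ofReal_natCast]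
  rw [hinv, ← div_eq_mul_inv, ENNReal.le_div_iff_mul_le (Or.inl hne)
    (Or.inl (ENNReal.natCast_ne_top _)), mul_comm]
  exact h1

theorem lin_near (p : Nat.Primes) (c d : ℤ) (hcd : IsCoprime c d) (j : ℕ) :
    ∃ z : @PadicInt p.1 ⟨p.2⟩, ∀ η : @PadicInt p.1 ⟨p.2⟩, lP p c d η ≤ (p : ℝ) ^ (-(j : ℤ)) →
      dP p η z ≤ (p : ℝ) ^ (-(j : ℤ)) := by
  have hp : Fact p.1.Prime := ⟨p.2⟩
  by_cases hpc : (p.1 : ℤ) ∣ c
  · -- `|c η + d| = 1`
    refine ⟨(0 : ℤ_[p.1]), fun η h => ?_⟩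
    have hpd : ¬ (p.1 : ℤ) ∣ d := by
      intro h'
      have h1 : (p.1 : ℤ) ∣ 1 := by
        obtain ⟨a, b, hab⟩ := hcd
        rw [← hab]
        exact dvd_add (hpc.mul_left a) (h'.mul_left b)
      have h2 : (p.1 : ℕ) ∣ 1 := by exact_mod_cast h1
      exact hp.1.one_lt.ne' (Nat.dvd_one.1 h2)
    have hd1 : ‖((d : ℤ) : ℤ_[p.1])‖ = 1 := by
      by_contra hne
      have h1 : ‖((d : ℤ) : ℤ_[p.1])‖ < 1 := lt_of_le_of_ne (PadicInt.norm_le_one _) hne
      exact hpd ((PadicInt.norm_int_lt_one_iff_dvd d).1 h1)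
    have hc1 : ‖((c : ℤ) : ℤ_[p.1]) * η‖ < 1 := by
      rw [norm_mul]
      have h1 : ‖((c : ℤ) : ℤ_[p.1])‖ < 1 := (PadicInt.norm_int_lt_one_iff_dvd c).2 hpc
      calc ‖((c : ℤ) : ℤ_[p.1])‖ * ‖η‖ ≤ ‖((c : ℤ) : ℤ_[p.1])‖ * 1 :=
            mul_le_mul_of_nonneg_left (PadicInt.norm_le_one _) (norm_nonneg _)
        _ < 1 := by rw [mul_one]; exact h1
    have hs : ‖((c : ℤ) : ℤ_[p.1]) * η + ((d : ℤ) : ℤ_[p.1])‖ = 1 := by
      rw [PadicInt.norm_add_eq_max_of_ne (by rw [hd1]; exact hc1.ne), hd1]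
      exact max_eq_right hc1.le
    have h1 : (1 : ℝ) ≤ (p : ℝ) ^ (-(j : ℤ)) := by
      rw [← hs]; exact h
    refine le_trans ?_ h1
    exact PadicInt.norm_le_one _
  · have hu : IsUnit ((c : ℤ) : ℤ_[p.1]) := by
      rw [PadicInt.isUnit_iff]
      by_contra hne
      have h1 : ‖((c : ℤ) : ℤ_[p.1])‖ < 1 := lt_of_le_of_ne (PadicInt.norm_le_one _) hne
      exact hpc ((PadicInt.norm_int_lt_one_iff_dvd c).1 h1)
    obtain ⟨u, hu'⟩ := hu
    refine ⟨-(↑(u⁻¹) * ((d : ℤ) : ℤ_[p.1])), fun η h => ?_⟩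
    have e : ((c : ℤ) : ℤ_[p.1]) * η + ((d : ℤ) : ℤ_[p.1]) =
        ((c : ℤ) : ℤ_[p.1]) * (η - (-(↑(u⁻¹) * ((d : ℤ) : ℤ_[p.1])))) := by
      rw [← hu']
      have := u.mul_inv
      linear_combination (-((d : ℤ) : ℤ_[p.1])) * this
    have hc1 : ‖((c : ℤ) : ℤ_[p.1])‖ = 1 := by
      rw [← PadicInt.isUnit_iff, ← hu']
      exact u.isUnit
    have h1 : ‖((c : ℤ) : ℤ_[p.1]) * η + ((d : ℤ) : ℤ_[p.1])‖ ≤ (p : ℝ) ^ (-(j : ℤ)) := h
    rw [e, norm_mul, hc1, one_mul] at h1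
    exact h1

theorem lin (h : S_HAAR) : S_LIN := by
  intro _ _ μ _ _ V c d hcd j
  choose z hz using fun p : Nat.Primes => lin_near p c d hcd (j p)
  refine le_trans (measure_mono ?_) (h μ V z j)
  intro η hη p hp
  exact hz p (η p) (hη p hp)

theorem meas (h1 : S_HAAR) (h2 : S_BALLS) : S_MEAS := by
  intro _ _ μ _ _ V a b c hP hD j
  classical
  choose z₁ z₂ k hk hz using fun p : Nat.Primes => h2 p a b c hP hD (j p)
  have hsub : {η : ZHat | ∀ p ∈ V, vP p a b c (η p) ≤ (p : ℝ) ^ (-(j p : ℤ))} ⊆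
      ⋃ T ∈ V.powerset, {η : ZHat | ∀ p ∈ V,
        dP p (η p) (if p ∈ T then z₁ p else z₂ p) ≤ (p : ℝ) ^ (-(k p : ℤ))} := by
    intro η hη
    refine Set.mem_iUnion₂.2 ⟨V.filter fun p => dP p (η p) (z₁ p) ≤ (p : ℝ) ^ (-(k p : ℤ)),
      Finset.mem_powerset.2 (Finset.filter_subset _ _), ?_⟩
    intro p hp
    by_cases hc : dP p (η p) (z₁ p) ≤ (p : ℝ) ^ (-(k p : ℤ))
    · have hm : p ∈ V.filter fun p => dP p (η p) (z₁ p) ≤ (p : ℝ) ^ (-(k p : ℤ)) :=
        Finset.mem_filter.2 ⟨hp, hc⟩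
      rw [if_pos hm]
      exact hc
    · have hm : p ∉ V.filter fun p => dP p (η p) (z₁ p) ≤ (p : ℝ) ^ (-(k p : ℤ)) :=
        fun hm => hc (Finset.mem_filter.1 hm).2
      rw [if_neg hm]
      exact (hz p (η p) (hη p hp)).resolve_left hc
  refine (measure_mono hsub).trans ((measure_biUnion_finset_le _ _).trans ?_)
  have hT : ∀ T ∈ V.powerset, μ {η : ZHat | ∀ p ∈ V,
      dP p (η p) (if p ∈ T then z₁ p else z₂ p) ≤ (p : ℝ) ^ (-(k p : ℤ))} ≤
      μ Set.univ * ENNReal.ofReal (∏ p ∈ V, (p : ℝ) ^ (-(k p : ℤ))) := by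
    intro T _
    exact h1 μ V (fun p => if p ∈ T then z₁ p else z₂ p) k
  refine (Finset.sum_le_sum hT).trans ?_
  rw [Finset.sum_const, Finset.card_powerset, nsmul_eq_mul]
  have hk' : ∏ p ∈ V, (p : ℝ) ^ (-(k p : ℤ)) ≤
      (∏ p ∈ V, (p : ℝ) ^ (-(j p : ℤ))) * sqV V (dsc a b c) := by
    unfold sqV
    rw [← Finset.prod_mul_distrib]
    refine Finset.prod_le_prod (fun p _ => by positivity) fun p _ => ?_
    have hp0 : (0 : ℝ) < (p : ℝ) := by exact_mod_cast p.2.pos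
    have hp1 : (1 : ℝ) ≤ (p : ℝ) := by exact_mod_cast p.2.one_lt.le
    refine (pow_le_pow_iff_left₀ (by positivity) (by positivity) two_ne_zero).1 ?_
    rw [mul_pow, Real.sq_sqrt (by positivity), ← zpow_natCast, ← zpow_mul, ← zpow_natCast,
      ← zpow_mul, ← zpow_natCast, ← zpow_add₀ hp0.ne']
    refine zpow_le_zpow_right₀ hp1 ?_
    have := hk p
    push_cast
    omega
  have hsq : 0 ≤ sqV V (dsc a b c) := by
    unfold sqV
    exact Finset.prod_nonneg fun p _ => Real.sqrt_nonneg _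
  calc ((2 ^ V.card : ℕ) : ENNReal) * (μ Set.univ *
        ENNReal.ofReal (∏ p ∈ V, (p : ℝ) ^ (-(k p : ℤ))))
      = μ Set.univ * ENNReal.ofReal (2 ^ V.card * ∏ p ∈ V, (p : ℝ) ^ (-(k p : ℤ))) := by
        rw [ENNReal.ofReal_mul (by positivity)]
        have e : ENNReal.ofReal (2 ^ V.card) = ((2 ^ V.card : ℕ) : ENNReal) := by
          rw [← ENNReal.ofReal_natCast]; push_cast; rfl
        rw [e]
        ring
    _ ≤ _ := by
        refine mul_le_mul_right (ENNReal.ofReal_le_ofReal ?_) _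
        rw [mul_assoc]
        exact mul_le_mul_of_nonneg_left hk' (by positivity)

end Pool.Agent.Q66.QP
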