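import Pool.Agent.Q57.QP.Stm

set_option autoImplicit false
set_option linter.unusedSectionVars false

/-! # Basic facts on the integrals near a point -/

namespace Pool.Agent.Q66.QP

open MeasureTheory Topology
open Pool.Agent.W427.SMC Pool.Agent.Y230.PT Pool.Agent.Y230.PS Pool.Agent.Q57.QP
open scoped ENNReal

attribute [local instance] msK bsK msZ bsZ

variable {p : ℕ} [Fact p.Prime] {σ : Type} [Fintype σ]

theorem siz_nonneg {h : (σ → ℚ_[p]) → ℝ} (hh : Siz h) (x : σ → ℚ_[p]) : 0 ≤ h x := by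
  rcases hh.val x with h0 | ⟨k, hk⟩
  · rw [h0]
  · rw [hk]
    exact zpow_nonneg (Nat.cast_nonneg _) k

theorem siz_meas {h : (σ → ℚ_[p]) → ℝ} (hh : Siz h) (s : ℝ) :
    Measurable (fun x => ENNReal.ofReal (h x ^ s)) :=
  ENNReal.measurable_ofReal.comp (hh.cont.measurable.pow_const s)

instance muE_lf : IsLocallyFiniteMeasure (muE p σ) := by
  unfold muE
  infer_instance

instance muE_sf : SigmaFinite (muE p σ) := by
  unfold muE
  infer_instance

instance muE_inv : (muE p σ).IsAddLeftInvariant := by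
  unfold muE
  infer_instance

instance muE_invr : (muE p σ).IsAddRightInvariant := by
  refine ⟨fun g => ?_⟩
  have h := MeasureTheory.map_add_left_eq_self (muE p σ) g
  simp only [add_comm _ g]
  exact h

theorem co_meas {V : Set (σ → ℚ_[p])} (hV : CO V) : MeasurableSet V := hV.2.measurableSet

theorem co_inter {V W : Set (σ → ℚ_[p])} (hV : CO V) (hW : CO W) : CO (V ∩ W) :=
  ⟨hV.1.inter hW.1, hV.2.inter hW.2⟩

theorem co_union {V W : Set (σ → ℚ_[p])} (hV : CO V) (hW : CO W) : CO (V ∪ W) :=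
  ⟨hV.1.union hW.1, hV.2.union hW.2⟩

theorem co_sdiff {V W : Set (σ → ℚ_[p])} (hV : CO V) (hW : CO W) : CO (V \ W) :=
  ⟨hV.1.diff hW.2, hV.2.sdiff hW.1.isClosed⟩

theorem co_ball (a : σ → ℚ_[p]) {r : ℝ} (hr : 0 < r) : CO (Metric.closedBall a r) :=
  ⟨isCompact_closedBall a r, IsUltrametricDist.isOpen_closedBall a hr.ne'⟩

theorem iz_fin {h : (σ → ℚ_[p]) → ℝ} (hh : Siz h) {V : Set (σ → ℚ_[p])} (hV : CO V) {s : ℝ}
    (hs : 0 ≤ s) : ∫⁻ x in V, ENNReal.ofReal (h x ^ s) ∂(muE p σ) ≠ ⊤ := by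
  obtain ⟨B, hB⟩ := (hV.1.image hh.cont).bddAbove
  have h1 : ∫⁻ x in V, ENNReal.ofReal (h x ^ s) ∂(muE p σ) ≤
      ∫⁻ x in V, ENNReal.ofReal (B ^ s) ∂(muE p σ) := by
    refine setLIntegral_mono measurable_const fun x hx => ?_
    exact ENNReal.ofReal_le_ofReal (Real.rpow_le_rpow (siz_nonneg hh x) (hB ⟨x, hx, rfl⟩) hs)
  rw [setLIntegral_const] at h1
  exact (h1.trans_lt (ENNReal.mul_lt_top ENNReal.ofReal_lt_top hV.1.measure_lt_top)).ne

theorem iz_union {h : (σ → ℚ_[p]) → ℝ} (hh : Siz h) {V W : Set (σ → ℚ_[p])} (hV : CO V)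
    (hW : CO W) (hd : Disjoint V W) {s : ℝ} (hs : 0 ≤ s) :
    IZ h (V ∪ W) s = IZ h V s + IZ h W s := by
  unfold IZ
  rw [lintegral_union (co_meas hW) hd, ENNReal.toReal_add (iz_fin hh hV hs) (iz_fin hh hW hs)]
  push_cast
  rfl

/-- the multiplication of the coordinates in `T` by `c` -/
noncomputable def dil [DecidableEq σ] (T : Finset σ) (c : ℚ_[p]) (x : σ → ℚ_[p]) : σ → ℚ_[p] :=
  fun i => if i ∈ T then c * x i else x i

variable [DecidableEq σ]

theorem dil_dil (T : Finset σ) (c e : ℚ_[p]) (x : σ → ℚ_[p]) :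
    dil T c (dil T e x) = dil T (c * e) x := by
  funext i
  unfold dil
  split_ifs with h
  · rw [mul_assoc]
  · rfl

theorem dil_one (T : Finset σ) (x : σ → ℚ_[p]) : dil T 1 x = x := by
  funext i
  unfold dil
  split_ifs with h
  · rw [one_mul]
  · rfl

theorem dil_cont (T : Finset σ) (c : ℚ_[p]) : Continuous (dil (p := p) T c) := by
  refine continuous_pi fun i => ?_
  unfold dil
  split_ifs with h
  · exact continuous_const.mul (continuous_apply i)
  · exact continuous_apply i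

/-- the dilation as a homeomorphism -/
noncomputable def dilH (T : Finset σ) (c : ℚ_[p]) (hc : c ≠ 0) : (σ → ℚ_[p]) ≃ₜ (σ → ℚ_[p]) where
  toFun := dil T c
  invFun := dil T c⁻¹
  left_inv x := by rw [dil_dil, inv_mul_cancel₀ hc, dil_one]
  right_inv x := by rw [dil_dil, mul_inv_cancel₀ hc, dil_one]
  continuous_toFun := dil_cont T c
  continuous_invFun := dil_cont T c⁻¹

theorem dilH_apply (T : Finset σ) (c : ℚ_[p]) (hc : c ≠ 0) (x : σ → ℚ_[p]) :
    dilH T c hc x = dil T c x := rfl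

theorem muE_dil (T : Finset σ) (c : ℚ_[p]) (hc : c ≠ 0) :
    muE p σ = (N p 1 c) ^ T.card • Measure.map (dil T c) (muE p σ) := by
  unfold muE
  refine Measure.pi_eq fun s hs => ?_
  rw [Measure.smul_apply, Measure.map_apply (dil_cont T c).measurable
    (MeasurableSet.univ_pi hs)]
  have h1 : dil T c ⁻¹' (Set.univ.pi s) =
      Set.univ.pi (fun i => if i ∈ T then (fun x => c * x) ⁻¹' (s i) else s i) := by
    ext x
    simp only [Set.mem_preimage, Set.mem_pi, Set.mem_univ, true_imp_iff]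
    refine forall_congr' fun i => ?_
    unfold dil
    split_ifs with h
    · exact Iff.rfl
    · exact Iff.rfl
  rw [h1, Measure.pi_pi]
  have h2 : ∀ i, nu p (if i ∈ T then (fun x => c * x) ⁻¹' (s i) else s i) =
      (if i ∈ T then (N p 1 c)⁻¹ else 1) * nu p (s i) := by
    intro i
    split_ifs with h
    · have h3 := lintegral_scale p c hc ((s i).indicator 1)
      rw [lintegral_indicator_one (hs i)] at h3
      have h4 : ∀ x, (s i).indicator (1 : ℚ_[p] → ℝ≥0∞) (c * x) =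
          ((fun x => c * x) ⁻¹' (s i)).indicator 1 x := fun x => rfl
      simp only [h4] at h3
      rw [lintegral_indicator_one ((measurable_const_mul c) (hs i))] at h3
      rw [← h3, ← mul_assoc, ENNReal.inv_mul_cancel (N_ne_zero 1 hc) (N_ne_top 1 c), one_mul]
    · rw [one_mul]
  simp only [h2]
  rw [Finset.prod_mul_distrib, Finset.prod_ite_mem, Finset.univ_inter, Finset.prod_const,
    smul_eq_mul, ← mul_assoc, ← mul_pow, ENNReal.mul_inv_cancel (N_ne_zero 1 hc) (N_ne_top 1 c),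
    one_pow, one_mul]

theorem lintegral_dil (T : Finset σ) (c : ℚ_[p]) (hc : c ≠ 0) (F : (σ → ℚ_[p]) → ℝ≥0∞) :
    (N p 1 c) ^ T.card * ∫⁻ x, F (dil T c x) ∂(muE p σ) = ∫⁻ x, F x ∂(muE p σ) := by
  have h1 := lintegral_map_equiv (μ := muE p σ) F (dilH T c hc).toMeasurableEquiv
  have h2 : ∫⁻ x, F x ∂(muE p σ) =
      ∫⁻ x, F x ∂((N p 1 c) ^ T.card • Measure.map (dil T c) (muE p σ)) := by
    rw [← muE_dil T c hc]
  rw [h2, lintegral_smul_measure]
  congr 1
  exact h1.symm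

theorem iz_dil {h : (σ → ℚ_[p]) → ℝ} (hh : Siz h) (T : Finset σ) (d : ℕ)
    (hd : ∀ (a : ℚ_[p]) (x : σ → ℚ_[p]), h (dil T a x) = ‖a‖ ^ d * h x)
    (c : ℚ_[p]) (hc : c ≠ 0) {V : Set (σ → ℚ_[p])} (hV : MeasurableSet V) (s : ℝ) :
    ∫⁻ x in dil T c '' V, ENNReal.ofReal (h x ^ s) ∂(muE p σ) =
      (N p 1 c) ^ T.card * (N p s c) ^ d * ∫⁻ x in V, ENNReal.ofReal (h x ^ s) ∂(muE p σ) := by
  have hinj : Function.Injective (dil (p := p) T c) := (dilH T c hc).injective
  have hVi : MeasurableSet (dil T c '' V) := by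
    have := (dilH T c hc).toMeasurableEquiv.measurableSet_image.2 hV
    exact this
  rw [← lintegral_indicator hVi, ← lintegral_dil T c hc, ← lintegral_indicator hV, mul_assoc]
  congr 1
  have h1 : ∀ x, (dil T c '' V).indicator (fun x => ENNReal.ofReal (h x ^ s)) (dil T c x) =
      (N p s c) ^ d * V.indicator (fun x => ENNReal.ofReal (h x ^ s)) x := by
    intro x
    by_cases hx : x ∈ V
    · rw [Set.indicator_of_mem hx, Set.indicator_of_mem (Set.mem_image_of_mem _ hx), hd,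
        Real.mul_rpow (pow_nonneg (norm_nonneg _) _) (siz_nonneg hh x),
        ENNReal.ofReal_mul (Real.rpow_nonneg (pow_nonneg (norm_nonneg _) _) _)]
      congr 1
      rw [← N_pow]
      unfold N
      rw [norm_pow]
    · rw [Set.indicator_of_notMem hx, mul_zero, Set.indicator_of_notMem]
      rintro ⟨y, hy, hxy⟩
      exact hx (hinj hxy ▸ hy)
  simp only [h1]
  rw [lintegral_const_mul' _ _ (ENNReal.pow_ne_top (N_ne_top _ _))]

theorem izc_dil {h : (σ → ℚ_[p]) → ℝ} (hh : Siz h) (T : Finset σ) (d : ℕ)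
    (hd : ∀ (a : ℚ_[p]) (x : σ → ℚ_[p]), h (dil T a x) = ‖a‖ ^ d * h x)
    (c : ℚ_[p]) (hc : c ≠ 0) {V : Set (σ → ℚ_[p])} (hV : MeasurableSet V) (s : ℝ) :
    IZ h (dil T c '' V) s =
      (((N p 1 c) ^ T.card).toReal : ℂ) * ((N p s c).toReal : ℂ) ^ d * IZ h V s := by
  unfold IZ
  rw [iz_dil hh T d hd c hc hV s, ENNReal.toReal_mul, ENNReal.toReal_mul,
    ENNReal.toReal_pow (N p s c)]
  push_cast
  rfl

end Pool.Agent.Q66.QP
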